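import Pool.Agent.Helper880_R3.Rel

/-!
# Tensor powers, the action of the Lie algebra, rational invariants (selfcontained copy of `Helper880_AH`, without the modules on
subtorsors)
-/

set_option autoImplicit false
set_option linter.unusedSectionVars false
set_option linter.unusedVariables false

open Matrix Module PowerSeries

namespace Pool.Agent.Helper880_RB

variable {n N r₀ d₀ d : ℕ}

/-- the index type -/
abbrev Ix (r₀ n N : ℕ) : Type := Fin r₀ ⊕ (Fin n × Fin N)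

/-- block matrices -/
def Tot {F : Type} [Zero F] (x : Matrix (Fin r₀) (Fin r₀) F) (X : Fin N → Matrix (Fin n) (Fin n) F) :
    Matrix (Ix r₀ n N) (Ix r₀ n N) F := fromBlocks x 0 0 (blockDiagonal X)

theorem Tot_mul (x y : Matrix (Fin r₀) (Fin r₀) ℂ) (X Y : Fin N → Matrix (Fin n) (Fin n) ℂ) :
    Tot x X * Tot y Y = Tot (x * y) fun j => X j * Y j := by
  unfold Tot
  rw [fromBlocks_multiply, ← blockDiagonal_mul]
  simp

theorem Tot_one : Tot (1 : Matrix (Fin r₀) (Fin r₀) ℂ) (fun _ : Fin N => (1 : Matrix (Fin n) (Fin n) ℂ)) = 1 := by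
  unfold Tot
  have h : (blockDiagonal fun _ : Fin N => (1 : Matrix (Fin n) (Fin n) ℂ)) = 1 := blockDiagonal_one
  rw [h, fromBlocks_one]

theorem Tot_inj {x y : Matrix (Fin r₀) (Fin r₀) ℂ} {X Y : Fin N → Matrix (Fin n) (Fin n) ℂ} (h : Tot x X = Tot y Y) :
    x = y ∧ X = Y := by
  obtain ⟨h1, -, -, h2⟩ := Matrix.fromBlocks_inj.1 h
  exact ⟨h1, Matrix.blockDiagonal_injective h2⟩

theorem Tot_unit {x : Matrix (Fin r₀) (Fin r₀) ℂ} {X : Fin N → Matrix (Fin n) (Fin n) ℂ} (h : IsUnit (Tot x X)) :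
    IsUnit x ∧ ∀ j, IsUnit (X j) := by
  have h1 := (Matrix.isUnit_iff_isUnit_det _).1 h
  unfold Tot at h1
  rw [Matrix.det_fromBlocks_zero₂₁, Matrix.det_blockDiagonal] at h1
  have h2 := h1.ne_zero
  refine ⟨(Matrix.isUnit_iff_isUnit_det _).2 (isUnit_iff_ne_zero.2 (left_ne_zero_of_mul h2)), fun j => ?_⟩
  have h3 := right_ne_zero_of_mul h2
  rw [Finset.prod_ne_zero_iff] at h3
  exact (Matrix.isUnit_iff_isUnit_det _).2 (isUnit_iff_ne_zero.2 (h3 j (Finset.mem_univ j)))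

section exp
attribute [local instance] Matrix.linftyOpNormedAddCommGroup Matrix.linftyOpNormedSpace Matrix.linftyOpNormedRing
  Matrix.linftyOpNormedAlgebra

theorem nexp {B : Type} [Fintype B] [DecidableEq B] {a : Matrix B B ℂ} (h : IsNilpotent a) :
    IsNilpotent.exp a = NormedSpace.exp a := by
  obtain ⟨k, hk⟩ := h
  rw [IsNilpotent.exp_eq_sum hk, NormedSpace.exp_eq_tsum ℂ]
  symm
  have h1 : ∑ i ∈ Finset.range k, ((i.factorial : ℚ)⁻¹ • a ^ i) = ∑ i ∈ Finset.range k, ((i.factorial : ℂ)⁻¹ • a ^ i) := by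
    refine Finset.sum_congr rfl fun i _ => ?_
    ext x y
    rw [Matrix.smul_apply, Matrix.smul_apply, Rat.smul_def]
    push_cast
    rfl
  rw [h1]
  refine tsum_eq_sum fun i hi => ?_
  rw [Finset.mem_range, not_lt] at hi
  rw [pow_eq_zero_of_le hi hk, smul_zero]

end exp

/-- the rational numbers -/
noncomputable def K₀ : Subfield ℂ := (algebraMap ℚ ℂ).fieldRange

theorem mem_K₀ {x : ℂ} : x ∈ K₀ ↔ ∃ q : ℚ, x = q := by
  unfold K₀
  rw [RingHom.mem_fieldRange]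
  constructor
  · rintro ⟨q, rfl⟩
    exact ⟨q, by simp⟩
  · rintro ⟨q, rfl⟩
    exact ⟨q, by simp⟩

/-- defined over a subfield -/
def DefOver {B : Type} (K : Subfield ℂ) (W : Submodule ℂ (Matrix B B ℂ)) : Prop :=
  W = Submodule.span ℂ {X | X ∈ W ∧ ∀ a b, X a b ∈ K}

/-- mixed tensors -/
abbrev Ten (K : Type) (d₀ d r₀ n : ℕ) : Type := (Fin d₀ → Fin r₀) → (Fin d → Fin n) → K

section act
variable {K : Type} [Field K]

/-- the action on one factor of the constant part -/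
def a0 (k : Fin d₀) (x : Matrix (Fin r₀) (Fin r₀) K) : Module.End K (Ten K d₀ d r₀ n) where
  toFun := fun f u v => ∑ a, x (u k) a * f (Function.update u k a) v
  map_add' := fun f g => by
    funext u v
    simp only [Pi.add_apply]
    rw [← Finset.sum_add_distrib]
    exact Finset.sum_congr rfl fun a _ => mul_add _ _ _
  map_smul' := fun c f => by
    funext u v
    simp only [Pi.smul_apply, RingHom.id_apply, smul_eq_mul]
    rw [Finset.mul_sum]
    exact Finset.sum_congr rfl fun a _ => by ring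

/-- the action on one factor of the variable part -/
def a1 (l : Fin d) (X : Matrix (Fin n) (Fin n) K) : Module.End K (Ten K d₀ d r₀ n) where
  toFun := fun f u v => ∑ a, X (v l) a * f u (Function.update v l a)
  map_add' := fun f g => by
    funext u v
    simp only [Pi.add_apply]
    rw [← Finset.sum_add_distrib]
    exact Finset.sum_congr rfl fun a _ => mul_add _ _ _
  map_smul' := fun c f => by
    funext u v
    simp only [Pi.smul_apply, RingHom.id_apply, smul_eq_mul]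
    rw [Finset.mul_sum]
    exact Finset.sum_congr rfl fun a _ => by ring

theorem a0_apply (k : Fin d₀) (x : Matrix (Fin r₀) (Fin r₀) K) (f : Ten K d₀ d r₀ n) (u : Fin d₀ → Fin r₀)
    (v : Fin d → Fin n) : a0 k x f u v = ∑ a, x (u k) a * f (Function.update u k a) v := rfl

theorem a1_apply (l : Fin d) (X : Matrix (Fin n) (Fin n) K) (f : Ten K d₀ d r₀ n) (u : Fin d₀ → Fin r₀)
    (v : Fin d → Fin n) : a1 l X f u v = ∑ a, X (v l) a * f u (Function.update v l a) := rfl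

theorem a0_mul (k : Fin d₀) (x y : Matrix (Fin r₀) (Fin r₀) K) :
    a0 k x * a0 k y = (a0 k (x * y) : Module.End K (Ten K d₀ d r₀ n)) := by
  refine LinearMap.ext fun f => ?_
  funext u v
  rw [Module.End.mul_apply, a0_apply, a0_apply]
  simp only [a0_apply, Function.update_self, Function.update_idem, Matrix.mul_apply, Finset.mul_sum, Finset.sum_mul]
  rw [Finset.sum_comm]
  exact Finset.sum_congr rfl fun _ _ => Finset.sum_congr rfl fun _ _ => by ring

theorem a1_mul (l : Fin d) (X Y : Matrix (Fin n) (Fin n) K) :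
    a1 l X * a1 l Y = (a1 l (X * Y) : Module.End K (Ten K d₀ d r₀ n)) := by
  refine LinearMap.ext fun f => ?_
  funext u v
  rw [Module.End.mul_apply, a1_apply, a1_apply]
  simp only [a1_apply, Function.update_self, Function.update_idem, Matrix.mul_apply, Finset.mul_sum, Finset.sum_mul]
  rw [Finset.sum_comm]
  exact Finset.sum_congr rfl fun _ _ => Finset.sum_congr rfl fun _ _ => by ring

theorem a0_comm {k k' : Fin d₀} (h : k ≠ k') (x y : Matrix (Fin r₀) (Fin r₀) K) :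
    a0 k x * a0 k' y = (a0 k' y * a0 k x : Module.End K (Ten K d₀ d r₀ n)) := by
  refine LinearMap.ext fun f => ?_
  funext u v
  rw [Module.End.mul_apply, Module.End.mul_apply, a0_apply, a0_apply]
  simp only [a0_apply, Function.update_of_ne h, Function.update_of_ne h.symm, Finset.mul_sum]
  rw [Finset.sum_comm]
  refine Finset.sum_congr rfl fun _ _ => Finset.sum_congr rfl fun _ _ => ?_
  rw [Function.update_comm h]
  ring

theorem a1_comm {l l' : Fin d} (h : l ≠ l') (X Y : Matrix (Fin n) (Fin n) K) :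
    a1 l X * a1 l' Y = (a1 l' Y * a1 l X : Module.End K (Ten K d₀ d r₀ n)) := by
  refine LinearMap.ext fun f => ?_
  funext u v
  rw [Module.End.mul_apply, Module.End.mul_apply, a1_apply, a1_apply]
  simp only [a1_apply, Function.update_of_ne h, Function.update_of_ne h.symm, Finset.mul_sum]
  rw [Finset.sum_comm]
  refine Finset.sum_congr rfl fun _ _ => Finset.sum_congr rfl fun _ _ => ?_
  rw [Function.update_comm h]
  ring

theorem a01_comm (k : Fin d₀) (l : Fin d) (x : Matrix (Fin r₀) (Fin r₀) K) (X : Matrix (Fin n) (Fin n) K) :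
    a0 k x * a1 l X = (a1 l X * a0 k x : Module.End K (Ten K d₀ d r₀ n)) := by
  refine LinearMap.ext fun f => ?_
  funext u v
  rw [Module.End.mul_apply, Module.End.mul_apply, a0_apply, a1_apply]
  simp only [a0_apply, a1_apply, Finset.mul_sum]
  rw [Finset.sum_comm]
  refine Finset.sum_congr rfl fun _ _ => Finset.sum_congr rfl fun _ _ => ?_
  ring

theorem a0_add (k : Fin d₀) (x y : Matrix (Fin r₀) (Fin r₀) K) :
    a0 k (x + y) = (a0 k x + a0 k y : Module.End K (Ten K d₀ d r₀ n)) := by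
  refine LinearMap.ext fun f => ?_
  funext u v
  simp only [LinearMap.add_apply, Pi.add_apply, a0_apply, Matrix.add_apply, add_mul, Finset.sum_add_distrib]

theorem a1_add (l : Fin d) (X Y : Matrix (Fin n) (Fin n) K) :
    a1 l (X + Y) = (a1 l X + a1 l Y : Module.End K (Ten K d₀ d r₀ n)) := by
  refine LinearMap.ext fun f => ?_
  funext u v
  simp only [LinearMap.add_apply, Pi.add_apply, a1_apply, Matrix.add_apply, add_mul, Finset.sum_add_distrib]

theorem a0_smul (k : Fin d₀) (c : K) (x : Matrix (Fin r₀) (Fin r₀) K) :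
    a0 k (c • x) = (c • a0 k x : Module.End K (Ten K d₀ d r₀ n)) := by
  refine LinearMap.ext fun f => ?_
  funext u v
  simp only [LinearMap.smul_apply, Pi.smul_apply, a0_apply, Matrix.smul_apply, smul_eq_mul, Finset.mul_sum, mul_assoc]

theorem a1_smul (l : Fin d) (c : K) (X : Matrix (Fin n) (Fin n) K) :
    a1 l (c • X) = (c • a1 l X : Module.End K (Ten K d₀ d r₀ n)) := by
  refine LinearMap.ext fun f => ?_
  funext u v
  simp only [LinearMap.smul_apply, Pi.smul_apply, a1_apply, Matrix.smul_apply, smul_eq_mul, Finset.mul_sum, mul_assoc]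

theorem a0_zero (k : Fin d₀) : a0 k (0 : Matrix (Fin r₀) (Fin r₀) K) = (0 : Module.End K (Ten K d₀ d r₀ n)) := by
  have := a0_smul (d := d) (n := n) k (0 : K) (0 : Matrix (Fin r₀) (Fin r₀) K)
  rwa [zero_smul, zero_smul] at this

theorem a1_zero (l : Fin d) : a1 l (0 : Matrix (Fin n) (Fin n) K) = (0 : Module.End K (Ten K d₀ d r₀ n)) := by
  have := a1_smul (d₀ := d₀) (r₀ := r₀) l (0 : K) (0 : Matrix (Fin n) (Fin n) K)
  rwa [zero_smul, zero_smul] at this

theorem a0_one (k : Fin d₀) : a0 k (1 : Matrix (Fin r₀) (Fin r₀) K) = (1 : Module.End K (Ten K d₀ d r₀ n)) := by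
  refine LinearMap.ext fun f => ?_
  funext u v
  rw [a0_apply, Finset.sum_eq_single (u k)]
  · rw [Matrix.one_apply_eq, one_mul, Function.update_eq_self]
    rfl
  · intro b _ hb
    rw [Matrix.one_apply_ne hb.symm, zero_mul]
  · intro h
    exact absurd (Finset.mem_univ _) h

theorem a1_one (l : Fin d) : a1 l (1 : Matrix (Fin n) (Fin n) K) = (1 : Module.End K (Ten K d₀ d r₀ n)) := by
  refine LinearMap.ext fun f => ?_
  funext u v
  rw [a1_apply, Finset.sum_eq_single (v l)]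
  · rw [Matrix.one_apply_eq, one_mul, Function.update_eq_self]
    rfl
  · intro b _ hb
    rw [Matrix.one_apply_ne hb.symm, zero_mul]
  · intro h
    exact absurd (Finset.mem_univ _) h

/-- the action of a block matrix -/
def act (τ : Fin d → Fin N) (x : Matrix (Fin r₀) (Fin r₀) K) (X : Fin N → Matrix (Fin n) (Fin n) K) :
    Module.End K (Ten K d₀ d r₀ n) := ∑ k, a0 k x + ∑ l, a1 l (X (τ l))

theorem act_apply (τ : Fin d → Fin N) (x : Matrix (Fin r₀) (Fin r₀) K) (X : Fin N → Matrix (Fin n) (Fin n) K)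
    (f : Ten K d₀ d r₀ n) (u : Fin d₀ → Fin r₀) (v : Fin d → Fin n) :
    act τ x X f u v = (∑ k, ∑ a, x (u k) a * f (Function.update u k a) v) +
      ∑ l, ∑ a, X (τ l) (v l) a * f u (Function.update v l a) := by
  unfold act
  rw [LinearMap.add_apply, LinearMap.sum_apply, LinearMap.sum_apply, Pi.add_apply, Pi.add_apply, Finset.sum_apply,
    Finset.sum_apply, Finset.sum_apply, Finset.sum_apply]
  rfl

theorem act_add (τ : Fin d → Fin N) (x y : Matrix (Fin r₀) (Fin r₀) K) (X Y : Fin N → Matrix (Fin n) (Fin n) K) :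
    act τ (x + y) (X + Y) = (act τ x X + act τ y Y : Module.End K (Ten K d₀ d r₀ n)) := by
  unfold act
  simp only [a0_add, Pi.add_apply, a1_add, Finset.sum_add_distrib]
  abel

theorem act_smul (τ : Fin d → Fin N) (c : K) (x : Matrix (Fin r₀) (Fin r₀) K) (X : Fin N → Matrix (Fin n) (Fin n) K) :
    act τ (c • x) (c • X) = (c • act τ x X : Module.End K (Ten K d₀ d r₀ n)) := by
  unfold act
  simp only [a0_smul, Pi.smul_apply, a1_smul, ← Finset.smul_sum, smul_add]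

theorem act_zero (τ : Fin d → Fin N) :
    act τ (0 : Matrix (Fin r₀) (Fin r₀) K) (0 : Fin N → Matrix (Fin n) (Fin n) K) =
      (0 : Module.End K (Ten K d₀ d r₀ n)) := by
  unfold act
  simp only [a0_zero, Pi.zero_apply, a1_zero, Finset.sum_const_zero, add_zero]

theorem comm_add' {A : Type} [Ring A] (a b c e : A) :
    (a + b) * (c + e) - (c + e) * (a + b) = (a * c - c * a) + (b * e - e * b) + ((a * e - e * a) + (b * c - c * b)) := by
  noncomm_ring

theorem sum_comm' {A : Type} [Ring A] {m : ℕ} (f g : Fin m → A) (h : ∀ i j, i ≠ j → f i * g j = g j * f i) :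
    (∑ i, f i) * (∑ i, g i) - (∑ i, g i) * (∑ i, f i) = ∑ i, (f i * g i - g i * f i) := by
  rw [Finset.sum_mul_sum, Finset.sum_mul_sum]
  have h1 : ∑ i, ∑ j, g i * f j = ∑ i, ∑ j, g j * f i := Finset.sum_comm
  rw [h1, ← Finset.sum_sub_distrib]
  refine Finset.sum_congr rfl fun l _ => ?_
  rw [← Finset.sum_sub_distrib, Finset.sum_eq_single l]
  · intro b _ hb
    rw [h l b hb.symm, sub_self]
  · intro h
    exact absurd (Finset.mem_univ _) h

theorem sum_comm0 {A : Type} [Ring A] {m m' : ℕ} (f : Fin m → A) (g : Fin m' → A) (h : ∀ i j, f i * g j = g j * f i) :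
    (∑ i, f i) * (∑ i, g i) - (∑ i, g i) * (∑ i, f i) = 0 := by
  rw [Finset.sum_mul_sum, Finset.sum_mul_sum, Finset.sum_comm, sub_eq_zero]
  exact Finset.sum_congr rfl fun i _ => Finset.sum_congr rfl fun j _ => h j i

/-- **the action is an action of Lie algebras** -/
theorem act_br (τ : Fin d → Fin N) (x y : Matrix (Fin r₀) (Fin r₀) K) (X Y : Fin N → Matrix (Fin n) (Fin n) K) :
    act τ x X * act τ y Y - act τ y Y * act τ x X =
      (act τ (x * y - y * x) (fun j => X j * Y j - Y j * X j) : Module.End K (Ten K d₀ d r₀ n)) := by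
  have hs0 : ∀ (k : Fin d₀) (a b : Matrix (Fin r₀) (Fin r₀) K), a0 k (a - b) =
      (a0 k a - a0 k b : Module.End K (Ten K d₀ d r₀ n)) := by
    intro k a b
    rw [sub_eq_add_neg, a0_add, sub_eq_add_neg, ← neg_one_smul K b, a0_smul, neg_one_smul K (a0 k b)]
  have hs1 : ∀ (k : Fin d) (a b : Matrix (Fin n) (Fin n) K), a1 k (a - b) =
      (a1 k a - a1 k b : Module.End K (Ten K d₀ d r₀ n)) := by
    intro k a b
    rw [sub_eq_add_neg, a1_add, sub_eq_add_neg, ← neg_one_smul K b, a1_smul, neg_one_smul K (a1 k b)]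
  unfold act
  rw [comm_add', sum_comm' _ _ fun i j h => a0_comm h _ _, sum_comm' _ _ fun i j h => a1_comm h _ _,
    sum_comm0 _ _ fun i j => a01_comm _ _ _ _, sum_comm0 _ _ fun i j => (a01_comm _ _ _ _).symm, add_zero, add_zero]
  congr 1
  · exact Finset.sum_congr rfl fun k _ => by rw [a0_mul, a0_mul, hs0]
  · exact Finset.sum_congr rfl fun k _ => by rw [a1_mul, a1_mul, hs1]

end act

/-- rational tensors as complex tensors -/
def tC (f : Ten ℚ d₀ d r₀ n) : Ten ℂ d₀ d r₀ n := fun u v => (f u v : ℂ)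

/-- the tensor power of a block matrix -/
def pw (τ : Fin d → Fin N) (x : Matrix (Fin r₀) (Fin r₀) ℂ) (X : Fin N → Matrix (Fin n) (Fin n) ℂ)
    (f : Ten ℂ d₀ d r₀ n) : Ten ℂ d₀ d r₀ n := fun u v =>
  ∑ u', ∑ v', (∏ k, x (u k) (u' k)) * (∏ l, X (τ l) (v l) (v' l)) * f u' v'

theorem pw_smul (τ : Fin d → Fin N) (x : Matrix (Fin r₀) (Fin r₀) ℂ) (X : Fin N → Matrix (Fin n) (Fin n) ℂ) (c : ℂ)
    (f : Ten ℂ d₀ d r₀ n) : pw τ x X (c • f) = c • pw τ x X f := by
  funext u v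
  show ∑ u', ∑ v', (∏ k, x (u k) (u' k)) * (∏ l, X (τ l) (v l) (v' l)) * (c * f u' v') = c * _
  unfold pw
  rw [Finset.mul_sum]
  refine Finset.sum_congr rfl fun u' _ => ?_
  rw [Finset.mul_sum]
  exact Finset.sum_congr rfl fun v' _ => by ring

theorem prod_one {m k : ℕ} (u u' : Fin m → Fin k) : (∏ i, (1 : Matrix (Fin k) (Fin k) ℂ) (u i) (u' i)) =
    if u' = u then 1 else 0 := by
  split_ifs with h
  · subst h
    exact Finset.prod_eq_one fun i _ => Matrix.one_apply_eq _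
  · obtain ⟨i, hi⟩ := Function.ne_iff.1 h
    exact Finset.prod_eq_zero (Finset.mem_univ i) (Matrix.one_apply_ne hi.symm)

theorem pw_one (τ : Fin d → Fin N) (f : Ten ℂ d₀ d r₀ n) : pw τ 1 (fun _ => 1) f = f := by
  funext u v
  unfold pw
  simp only [prod_one, ite_mul, one_mul, zero_mul]
  have h1 : ∀ u', (∑ v', if u' = u then (if v' = v then f u' v' else 0) else 0) = if u' = u then f u' v else 0 := by
    intro u'
    split_ifs with h
    · rw [Finset.sum_ite_eq' Finset.univ v, if_pos (Finset.mem_univ _)]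
    · exact Finset.sum_const_zero
  simp only [h1, Finset.sum_ite_eq', Finset.mem_univ, if_true]

theorem prod_mul' {m k : ℕ} (A B : Fin m → Matrix (Fin k) (Fin k) ℂ) (u u' : Fin m → Fin k) :
    (∏ i, (A i * B i) (u i) (u' i)) = ∑ w : Fin m → Fin k, (∏ i, A i (u i) (w i)) * ∏ i, B i (w i) (u' i) := by
  simp only [Matrix.mul_apply]
  rw [Finset.prod_univ_sum, Fintype.piFinset_univ]
  exact Finset.sum_congr rfl fun w _ => Finset.prod_mul_distrib

theorem pw_mul (τ : Fin d → Fin N) (x y : Matrix (Fin r₀) (Fin r₀) ℂ) (X Y : Fin N → Matrix (Fin n) (Fin n) ℂ)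
    (f : Ten ℂ d₀ d r₀ n) : pw τ (x * y) (fun j => X j * Y j) f = pw τ x X (pw τ y Y f) := by
  funext u v
  unfold pw
  have h1 : ∀ u' v', (∏ k, (x * y) (u k) (u' k)) * (∏ l, (X (τ l) * Y (τ l)) (v l) (v' l)) * f u' v' =
      ∑ u'' : Fin d₀ → Fin r₀, ∑ v'' : Fin d → Fin n, (∏ k, x (u k) (u'' k)) * (∏ l, X (τ l) (v l) (v'' l)) *
        ((∏ k, y (u'' k) (u' k)) * (∏ l, Y (τ l) (v'' l) (v' l)) * f u' v') := by
    intro u' v'
    rw [prod_mul' (fun _ => x) (fun _ => y), prod_mul' (fun l => X (τ l)) (fun l => Y (τ l)), Finset.sum_mul_sum,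
      Finset.sum_mul]
    refine Finset.sum_congr rfl fun u'' _ => ?_
    rw [Finset.sum_mul]
    exact Finset.sum_congr rfl fun v'' _ => by ring
  simp only [h1]
  rw [Finset.sum_congr rfl fun u' _ => Finset.sum_comm (s := (Finset.univ : Finset (Fin d → Fin n)))]
  rw [Finset.sum_comm (s := (Finset.univ : Finset (Fin d₀ → Fin r₀)))]
  refine Finset.sum_congr rfl fun u'' _ => ?_
  rw [Finset.sum_congr rfl fun u' _ => Finset.sum_comm (s := (Finset.univ : Finset (Fin d → Fin n)))]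
  rw [Finset.sum_comm (s := (Finset.univ : Finset (Fin d₀ → Fin r₀)))]
  refine Finset.sum_congr rfl fun v'' _ => ?_
  rw [Finset.mul_sum]
  refine Finset.sum_congr rfl fun u' _ => ?_
  rw [Finset.mul_sum]

section der

theorem prod_HD {m : ℕ} {F : Fin m → ℂ → ℂ} {F' : Fin m → ℂ} (h : ∀ l, HasDerivAt (F l) (F' l) 0) :
    HasDerivAt (fun s => ∏ l, F l s) (∑ l, (∏ i ∈ Finset.univ.erase l, F i 0) * F' l) 0 := by
  have h1 := HasDerivAt.fun_finsetProd (u := Finset.univ) fun l _ => h l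
  simpa only [smul_eq_mul] using h1

theorem pw_HD (τ : Fin d → Fin N) (Y : Fin N → Matrix (Fin n) (Fin n) ℂ) (f : Ten ℂ d₀ d r₀ n) (u : Fin d₀ → Fin r₀)
    (v : Fin d → Fin n) : HasDerivAt (fun s : ℂ => pw τ 1 (fun j => NormedSpace.exp (s • Y j)) f u v)
      (act τ 0 Y f u v) 0 := by
  have h1 : ∀ v' : Fin d → Fin n, HasDerivAt (fun s : ℂ => ∏ l, NormedSpace.exp (s • Y (τ l)) (v l) (v' l))
      (∑ l, (∏ i ∈ Finset.univ.erase l, (1 : Matrix (Fin n) (Fin n) ℂ) (v i) (v' i)) * Y (τ l) (v l) (v' l)) 0 := by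
    intro v'
    have h2 := prod_HD (F := fun l s => NormedSpace.exp (s • Y (τ l)) (v l) (v' l))
      (F' := fun l => Y (τ l) (v l) (v' l)) fun l => by
        have h3 := Pool.Agent.Helper880_R3.exp_HD (Y (τ l)) 0 (v l) (v' l)
        rw [zero_smul, Pool.Agent.Helper880_R3.exp_zero', Matrix.mul_one] at h3
        exact h3
    simp only [zero_smul, Pool.Agent.Helper880_R3.exp_zero'] at h2
    exact h2
  have h2 : HasDerivAt (fun s : ℂ => ∑ u', ∑ v', (∏ k, (1 : Matrix (Fin r₀) (Fin r₀) ℂ) (u k) (u' k)) *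
      (∏ l, NormedSpace.exp (s • Y (τ l)) (v l) (v' l)) * f u' v')
      (∑ u', ∑ v', (∏ k, (1 : Matrix (Fin r₀) (Fin r₀) ℂ) (u k) (u' k)) *
      (∑ l, (∏ i ∈ Finset.univ.erase l, (1 : Matrix (Fin n) (Fin n) ℂ) (v i) (v' i)) * Y (τ l) (v l) (v' l)) * f u' v') 0 :=
    HasDerivAt.fun_sum fun u' _ => HasDerivAt.fun_sum fun v' _ => ((h1 v').const_mul _).mul_const _
  refine h2.congr_deriv ?_
  have h3 : ∑ u', ∑ v', (∏ k, (1 : Matrix (Fin r₀) (Fin r₀) ℂ) (u k) (u' k)) *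
      (∑ l, (∏ i ∈ Finset.univ.erase l, (1 : Matrix (Fin n) (Fin n) ℂ) (v i) (v' i)) * Y (τ l) (v l) (v' l)) * f u' v' =
      ∑ v', (∑ l, (∏ i ∈ Finset.univ.erase l, (1 : Matrix (Fin n) (Fin n) ℂ) (v i) (v' i)) * Y (τ l) (v l) (v' l)) *
        f u v' := by
    rw [Finset.sum_eq_single u]
    · simp only [prod_one, if_true, one_mul]
    · intro u' _ hu'
      refine Finset.sum_eq_zero fun v' _ => ?_
      rw [prod_one, if_neg hu', zero_mul, zero_mul]
    · intro h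
      exact absurd (Finset.mem_univ _) h
  rw [h3, act_apply]
  have h4 : ∑ k, ∑ a, (0 : Matrix (Fin r₀) (Fin r₀) ℂ) (u k) a * f (Function.update u k a) v = 0 :=
    Finset.sum_eq_zero fun k _ => Finset.sum_eq_zero fun a _ => by rw [Matrix.zero_apply, zero_mul]
  rw [h4, zero_add]
  simp only [Finset.sum_mul]
  rw [Finset.sum_comm]
  refine Finset.sum_congr rfl fun l _ => ?_
  have h5 : ∀ v' : Fin d → Fin n, (∏ i ∈ Finset.univ.erase l, (1 : Matrix (Fin n) (Fin n) ℂ) (v i) (v' i)) =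
      if v' = Function.update v l (v' l) then 1 else 0 := by
    intro v'
    split_ifs with h
    · refine Finset.prod_eq_one fun i hi => ?_
      have h6 := congrFun h i
      rw [Function.update_of_ne (Finset.ne_of_mem_erase hi)] at h6
      rw [h6, Matrix.one_apply_eq]
    · obtain ⟨i, hi⟩ := Function.ne_iff.1 h
      have hil : i ≠ l := by
        rintro rfl
        rw [Function.update_self] at hi
        exact hi rfl
      rw [Function.update_of_ne hil] at hi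
      exact Finset.prod_eq_zero (Finset.mem_erase.2 ⟨hil, Finset.mem_univ i⟩) (Matrix.one_apply_ne hi.symm)
  simp only [h5]
  symm
  refine Finset.sum_of_injOn (fun a => Function.update v l a) ?_ (fun _ _ => Finset.mem_coe.2 (Finset.mem_univ _)) ?_ ?_
  · intro a _ b _ hab
    have h6 := congrFun hab l
    simp only [Function.update_self] at h6
    exact h6
  · intro v' _ hv'
    rw [if_neg, zero_mul, zero_mul]
    intro h6
    exact hv' ⟨v' l, Finset.mem_coe.2 (Finset.mem_univ _), h6.symm⟩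
  · intro a _
    rw [Function.update_self, if_pos rfl, one_mul]

end der

/-- the action of one block -/
noncomputable def one (τ : Fin d → Fin N) (f : Ten ℂ d₀ d r₀ n) (j : Fin N) :
    Matrix (Fin n) (Fin n) ℂ →ₗ[ℂ] Ten ℂ d₀ d r₀ n where
  toFun X := act τ 0 (Pi.single j X) f
  map_add' X Y := by
    rw [Pi.single_add, ← LinearMap.add_apply, ← act_add, add_zero]
  map_smul' c X := by
    rw [Pi.single_smul, RingHom.id_apply, ← LinearMap.smul_apply, ← act_smul, smul_zero]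


theorem one_apply' {τ : Fin d → Fin N} {f : Ten ℂ d₀ d r₀ n} {j : Fin N} (X : Matrix (Fin n) (Fin n) ℂ) :
    one τ f j X = act τ 0 (Pi.single j X) f := rfl

/-- the action of a pair of matrices on tensors -/
def gp (x : Matrix (Fin r₀) (Fin r₀) ℂ) (X : Matrix (Fin n) (Fin n) ℂ) (f : Ten ℂ d₀ d r₀ n) : Ten ℂ d₀ d r₀ n :=
  pw (fun _ : Fin d => (0 : Fin 1)) x (fun _ => X) f

theorem gp_apply (x : Matrix (Fin r₀) (Fin r₀) ℂ) (X : Matrix (Fin n) (Fin n) ℂ) (f : Ten ℂ d₀ d r₀ n)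
    (u : Fin d₀ → Fin r₀) (v : Fin d → Fin n) :
    gp x X f u v = ∑ u', ∑ v', (∏ k, x (u k) (u' k)) * (∏ l, X (v l) (v' l)) * f u' v' := rfl

theorem gp_mul (x y : Matrix (Fin r₀) (Fin r₀) ℂ) (X Y : Matrix (Fin n) (Fin n) ℂ) (f : Ten ℂ d₀ d r₀ n) :
    gp (x * y) (X * Y) f = gp x X (gp y Y f) := pw_mul _ _ _ (fun _ => X) (fun _ => Y) _

theorem gp_one (f : Ten ℂ d₀ d r₀ n) : gp 1 1 f = f := pw_one _ _

theorem gp_add (x : Matrix (Fin r₀) (Fin r₀) ℂ) (X : Matrix (Fin n) (Fin n) ℂ) (f g : Ten ℂ d₀ d r₀ n) :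
    gp x X (f + g) = gp x X f + gp x X g := by
  funext u v
  rw [Pi.add_apply, Pi.add_apply, gp_apply, gp_apply, gp_apply, ← Finset.sum_add_distrib]
  refine Finset.sum_congr rfl fun u' _ => ?_
  rw [← Finset.sum_add_distrib]
  exact Finset.sum_congr rfl fun v' _ => by rw [Pi.add_apply, Pi.add_apply, mul_add]

theorem gp_smul (x : Matrix (Fin r₀) (Fin r₀) ℂ) (X : Matrix (Fin n) (Fin n) ℂ) (c : ℂ) (f : Ten ℂ d₀ d r₀ n) :
    gp x X (c • f) = c • gp x X f := pw_smul _ _ _ _ _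

theorem gp_zero (x : Matrix (Fin r₀) (Fin r₀) ℂ) (X : Matrix (Fin n) (Fin n) ℂ) :
    gp x X (0 : Ten ℂ d₀ d r₀ n) = 0 := by
  have h1 := gp_smul x X 0 (0 : Ten ℂ d₀ d r₀ n)
  rwa [zero_smul, zero_smul] at h1

theorem gp_sum {ι : Type} (x : Matrix (Fin r₀) (Fin r₀) ℂ) (X : Matrix (Fin n) (Fin n) ℂ) (s : Finset ι)
    (F : ι → Ten ℂ d₀ d r₀ n) : gp x X (∑ i ∈ s, F i) = ∑ i ∈ s, gp x X (F i) := by
  classical
  induction s using Finset.induction_on with
  | empty => rw [Finset.sum_empty, Finset.sum_empty, gp_zero]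
  | insert a s ha ih => rw [Finset.sum_insert ha, Finset.sum_insert ha, gp_add, ih]

/-- the action of the Lie algebra on the second factor -/
noncomputable def la (X : Matrix (Fin n) (Fin n) ℂ) (f : Ten ℂ d₀ d r₀ n) : Ten ℂ d₀ d r₀ n :=
  act (fun _ : Fin d => (0 : Fin 1)) 0 (fun _ => X) f

theorem la_apply (X : Matrix (Fin n) (Fin n) ℂ) (f : Ten ℂ d₀ d r₀ n) (u : Fin d₀ → Fin r₀) (v : Fin d → Fin n) :
    la X f u v = ∑ l, ∑ a, X (v l) a * f u (Function.update v l a) := by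
  unfold la
  rw [act_apply]
  have h1 : ∑ k, ∑ a, (0 : Matrix (Fin r₀) (Fin r₀) ℂ) (u k) a * f (Function.update u k a) v = 0 :=
    Finset.sum_eq_zero fun k _ => Finset.sum_eq_zero fun a _ => by rw [Matrix.zero_apply, zero_mul]
  rw [h1, zero_add]

theorem one_la (X : Matrix (Fin n) (Fin n) ℂ) (f : Ten ℂ d₀ d r₀ n) :
    one (fun _ : Fin d => (0 : Fin 1)) f 0 X = la X f := by
  rw [one_apply']
  unfold la
  have h1 : (Pi.single 0 X : Fin 1 → Matrix (Fin n) (Fin n) ℂ) = fun _ => X := by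
    funext j
    rw [Subsingleton.elim j 0, Pi.single_eq_same]
  rw [h1]

theorem gp_HD (Y : Matrix (Fin n) (Fin n) ℂ) (f : Ten ℂ d₀ d r₀ n) (u : Fin d₀ → Fin r₀) (v : Fin d → Fin n) :
    HasDerivAt (fun s : ℂ => gp 1 (NormedSpace.exp (s • Y)) f u v) (la Y f u v) 0 :=
  pw_HD (fun _ : Fin d => (0 : Fin 1)) (fun _ => Y) f u v

/-- the actions of the group and of the Lie algebra -/
theorem la_gp (x : Matrix (Fin r₀) (Fin r₀) ℂ) {X : Matrix (Fin n) (Fin n) ℂ} (hX : IsUnit X.det) (Y : Matrix (Fin n) (Fin n) ℂ)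
    (f : Ten ℂ d₀ d r₀ n) : la Y (gp x X f) = gp x X (la (X⁻¹ * Y * X) f) := by
  funext u v
  have h1 : HasDerivAt (fun s : ℂ => gp 1 (NormedSpace.exp (s • Y)) (gp x X f) u v) (la Y (gp x X f) u v) 0 :=
    gp_HD Y _ u v
  have h2 : HasDerivAt (fun s : ℂ => gp x X (gp 1 (NormedSpace.exp (s • (X⁻¹ * Y * X))) f) u v)
      (gp x X (la (X⁻¹ * Y * X) f) u v) 0 := by
    simp only [gp_apply x X]
    exact HasDerivAt.fun_sum fun u' _ => HasDerivAt.fun_sum fun v' _ => (gp_HD (X⁻¹ * Y * X) f u' v').const_mul _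
  have h3 : (fun s : ℂ => gp 1 (NormedSpace.exp (s • Y)) (gp x X f) u v) =
      fun s : ℂ => gp x X (gp 1 (NormedSpace.exp (s • (X⁻¹ * Y * X))) f) u v := by
    funext s
    rw [← gp_mul, ← gp_mul, one_mul, mul_one]
    have hu : IsUnit X := (Matrix.isUnit_iff_isUnit_det _).2 hX
    have h4 : NormedSpace.exp (s • (X⁻¹ * Y * X)) = X⁻¹ * NormedSpace.exp (s • Y) * X := by
      have h5 := Matrix.exp_conj' X (s • Y) hu
      rw [← h5]
      congr 1
      rw [Matrix.mul_smul, Matrix.smul_mul]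
    rw [h4, ← Matrix.mul_assoc, ← Matrix.mul_assoc, Matrix.mul_nonsing_inv _ hX, Matrix.one_mul]
  rw [h3] at h1
  exact h1.unique h2

/-- coordinates of a complex tensor -/
noncomputable def co (μ : ℂ →ₗ[ℚ] ℚ) (w : Ten ℂ d₀ d r₀ n) : Ten ℚ d₀ d r₀ n := fun u v => μ (w u v)

theorem mu_rat (μ : ℂ →ₗ[ℚ] ℚ) (q : ℚ) (z : ℂ) : μ ((q : ℂ) * z) = q * μ z := by
  rw [← Rat.smul_def, map_smul, smul_eq_mul]

/-- the coordinates of invariant tensors are invariant -/
theorem co_kill {𝔤 : Submodule ℂ (Matrix (Fin n) (Fin n) ℂ)} (hr : DefOver K₀ 𝔤) {w : Ten ℂ d₀ d r₀ n}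
    (hw : ∀ X ∈ 𝔤, la X w = 0) (μ : ℂ →ₗ[ℚ] ℚ) : ∀ X ∈ 𝔤, la X (tC (co μ w)) = 0 := by
  have key : 𝔤 ≤ LinearMap.ker (one (fun _ : Fin d => (0 : Fin 1)) (tC (co μ w)) 0) := by
    rw [hr]
    refine Submodule.span_le.2 ?_
    rintro X ⟨hX, hq⟩
    rw [SetLike.mem_coe, LinearMap.mem_ker, one_la]
    funext u v
    rw [la_apply]
    have h1 := congrArg μ (congrFun (congrFun (hw X hX) u) v)
    rw [la_apply, map_sum] at h1
    have h2 : (((∑ l, μ (∑ a, X (v l) a * w u (Function.update v l a)) : ℚ)) : ℂ) = 0 := by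
      rw [h1]
      show ((μ 0 : ℚ) : ℂ) = 0
      rw [map_zero, Rat.cast_zero]
    rw [Rat.cast_sum] at h2
    refine Eq.trans (Finset.sum_congr rfl fun l _ => ?_) h2
    rw [map_sum, Rat.cast_sum]
    refine Finset.sum_congr rfl fun a _ => ?_
    obtain ⟨q, hq'⟩ := mem_K₀.1 (hq (v l) a)
    rw [hq', mu_rat, Rat.cast_mul]
    rfl
  intro X hX
  rw [← one_la]
  exact LinearMap.mem_ker.1 (key hX)

/-- an invariant tensor is a combination of rational invariant tensors -/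
theorem expand {𝔤 : Submodule ℂ (Matrix (Fin n) (Fin n) ℂ)} (hr : DefOver K₀ 𝔤) {w : Ten ℂ d₀ d r₀ n}
    (hw : ∀ X ∈ 𝔤, la X w = 0) : ∃ (ι : Type) (s : Finset ι) (b : ι → ℂ) (g : ι → Ten ℚ d₀ d r₀ n),
      (∀ i, ∀ X ∈ 𝔤, la X (tC (g i)) = 0) ∧ w = ∑ i ∈ s, b i • tC (g i) := by
  classical
  set b := Module.Basis.ofVectorSpace ℚ ℂ with hb
  set s : Finset _ := Finset.univ.biUnion fun p : (Fin d₀ → Fin r₀) × (Fin d → Fin n) => (b.repr (w p.1 p.2)).support with hs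
  refine ⟨_, s, fun i => b i, fun i => co (b.coord i) w, fun i => co_kill hr hw _, ?_⟩
  funext u v
  rw [Finset.sum_apply, Finset.sum_apply]
  have h1 := b.linearCombination_repr (w u v)
  have h2 : (b.repr (w u v)).support ⊆ s := fun i hi => Finset.mem_biUnion.2 ⟨(u, v), Finset.mem_univ _, hi⟩
  have h3 := Finsupp.sum_of_support_subset (b.repr (w u v)) h2 (fun i a => a • b i) (fun i _ => zero_smul ℚ (b i))
  rw [Finsupp.linearCombination_apply, h3] at h1
  conv_lhs => rw [← h1]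
  refine Finset.sum_congr rfl fun i _ => ?_
  show (b.repr (w u v)) i • b i = b i * (((b.repr (w u v)) i : ℚ) : ℂ)
  rw [Rat.smul_def, mul_comm]

/-- the conjugate tensor, with a twist by `κ` -/
noncomputable def cw (σ : ℂ ≃+* ℂ) (κ : ℂ) (w : Ten ℂ d₀ d r₀ n) : Ten ℂ d₀ d r₀ n := fun u v => κ⁻¹ * σ (κ * w u v)

theorem cw_sum {ι : Type} (σ : ℂ ≃+* ℂ) (κ : ℂ) (s : Finset ι) (b : ι → ℂ) (g : ι → Ten ℚ d₀ d r₀ n) :
    cw σ κ (∑ i ∈ s, b i • tC (g i)) = ∑ i ∈ s, (κ⁻¹ * σ (κ * b i)) • tC (g i) := by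
  funext u v
  show κ⁻¹ * σ (κ * (∑ i ∈ s, b i • tC (g i)) u v) = _
  rw [Finset.sum_apply, Finset.sum_apply, Finset.sum_apply, Finset.sum_apply, Finset.mul_sum, map_sum, Finset.mul_sum]
  refine Finset.sum_congr rfl fun i _ => ?_
  show κ⁻¹ * σ (κ * (b i * ((g i u v : ℚ) : ℂ))) = κ⁻¹ * σ (κ * b i) * ((g i u v : ℚ) : ℂ)
  rw [← mul_assoc, map_mul, map_ratCast, mul_assoc]

/-- **conjugation and rational invariants**: if all rational invariant tensors are images of rational tensors under `Zt` then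
this is compatible with conjugation -/
theorem conj_inv {𝔤 : Submodule ℂ (Matrix (Fin n) (Fin n) ℂ)} (hr : DefOver K₀ 𝔤) {Zt : Matrix (Fin n) (Fin n) ℂ}
    (hZ : ∀ g : Ten ℚ d₀ d r₀ n, (∀ X ∈ 𝔤, la X (tC g) = 0) → ∃ h : Ten ℚ d₀ d r₀ n, gp 1 Zt (tC h) = tC g)
    {w : Ten ℂ d₀ d r₀ n} (hw : ∀ X ∈ 𝔤, la X w = 0) :
    ∃ wt : Ten ℂ d₀ d r₀ n, gp 1 Zt wt = w ∧ ∀ (σ : ℂ ≃+* ℂ) (κ : ℂ), gp 1 Zt (cw σ κ wt) = cw σ κ w := by
  obtain ⟨ι, s, b, g, h1, h2⟩ := expand hr hw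
  choose h hh using fun i => hZ (g i) (h1 i)
  refine ⟨∑ i ∈ s, b i • tC (h i), ?_, fun σ κ => ?_⟩
  · rw [gp_sum, h2]
    exact Finset.sum_congr rfl fun i _ => by rw [gp_smul, hh]
  · rw [cw_sum, gp_sum, h2, cw_sum]
    exact Finset.sum_congr rfl fun i _ => by rw [gp_smul, hh]

/-- conjugates of invariant tensors are invariant -/
theorem cw_kill {𝔤 : Submodule ℂ (Matrix (Fin n) (Fin n) ℂ)} (hr : DefOver K₀ 𝔤) {w : Ten ℂ d₀ d r₀ n}
    (hw : ∀ X ∈ 𝔤, la X w = 0) (σ : ℂ ≃+* ℂ) (κ : ℂ) : ∀ X ∈ 𝔤, la X (cw σ κ w) = 0 := by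
  obtain ⟨ι, s, b, g, h1, h2⟩ := expand hr hw
  intro X hX
  rw [h2, cw_sum]
  unfold la
  rw [map_sum]
  refine Finset.sum_eq_zero fun i _ => ?_
  rw [map_smul]
  have h3 := h1 i X hX
  unfold la at h3
  rw [h3, smul_zero]

open Pool.Agent.Helper880_R3 (Cc ec ec_add ec_mul Cc_coe ec_coe)

section ev
variable {q : ℝ}

theorem ec_zero : Cc q (0 : ℂ⟦X⟧) ∧ ec q (0 : ℂ⟦X⟧) = 0 := by
  have h1 := Cc_coe (q := q) (0 : Polynomial ℂ)
  have h2 := ec_coe (q := q) (0 : Polynomial ℂ)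
  rw [Polynomial.coe_zero] at h1 h2
  rw [Polynomial.eval_zero] at h2
  exact ⟨h1, h2⟩

theorem ec_one : Cc q (1 : ℂ⟦X⟧) ∧ ec q (1 : ℂ⟦X⟧) = 1 := by
  have h1 := Cc_coe (q := q) (1 : Polynomial ℂ)
  have h2 := ec_coe (q := q) (1 : Polynomial ℂ)
  rw [Polynomial.coe_one] at h1 h2
  rw [Polynomial.eval_one] at h2
  exact ⟨h1, h2⟩

theorem ec_sum {ι : Type} (s : Finset ι) {F : ι → ℂ⟦X⟧} (h : ∀ i, Cc q (F i)) :
    Cc q (∑ i ∈ s, F i) ∧ ec q (∑ i ∈ s, F i) = ∑ i ∈ s, ec q (F i) := by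
  classical
  induction s using Finset.induction_on with
  | empty =>
    rw [Finset.sum_empty, Finset.sum_empty]
    exact ec_zero
  | insert a s ha ih =>
    rw [Finset.sum_insert ha, Finset.sum_insert ha]
    exact ⟨(h a).add ih.1, by rw [ec_add (h a) ih.1, ih.2]⟩

theorem ec_prod {ι : Type} (s : Finset ι) {F : ι → ℂ⟦X⟧} (h : ∀ i, Cc q (F i)) :
    Cc q (∏ i ∈ s, F i) ∧ ec q (∏ i ∈ s, F i) = ∏ i ∈ s, ec q (F i) := by
  classical
  induction s using Finset.induction_on with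
  | empty =>
    rw [Finset.prod_empty, Finset.prod_empty]
    exact ec_one
  | insert a s ha ih =>
    rw [Finset.prod_insert ha, Finset.prod_insert ha]
    exact ⟨(h a).mul ih.1, by rw [ec_mul (h a) ih.1, ih.2]⟩

end ev

/-- the rational tensors which are killed by `𝔤` are, up to a polynomial factor, the images of polynomial tensors under `Z` -/
def RI (Z : Matrix (Fin n) (Fin n) ℚ⟦X⟧) (𝔤 : Submodule ℂ (Matrix (Fin n) (Fin n) ℂ)) : Prop :=
  ∀ (d : ℕ) (g : (Fin d → Fin n) → ℚ),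
    (∀ X ∈ 𝔤, ∀ v, ∑ l, ∑ a, X (v l) a * (g (Function.update v l a) : ℂ) = 0) →
    ∃ (q : Polynomial ℚ) (R : (Fin d → Fin n) → Polynomial ℚ), q ≠ 0 ∧
      ∀ v, (q : ℚ⟦X⟧) * PowerSeries.C (g v) = ∑ v', (∏ l, Z (v l) (v' l)) * (R v' : ℚ⟦X⟧)

/-- the complex power series -/
noncomputable def cx (f : ℚ⟦X⟧) : ℂ⟦X⟧ := PowerSeries.map (algebraMap ℚ ℂ) f

theorem cx_poly (p : Polynomial ℚ) : cx (p : ℚ⟦X⟧) = ((p.map (algebraMap ℚ ℂ) : Polynomial ℂ) : ℂ⟦X⟧) := by
  ext m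
  rw [cx, PowerSeries.coeff_map, Polynomial.coeff_coe, Polynomial.coeff_coe, Polynomial.coeff_map]

theorem ec_poly (u₀ : ℚ) (p : Polynomial ℚ) : Cc (u₀ : ℝ) (cx (p : ℚ⟦X⟧)) ∧ ec (u₀ : ℝ) (cx (p : ℚ⟦X⟧)) = ((p.eval u₀ : ℚ) : ℂ) := by
  rw [cx_poly]
  refine ⟨Cc_coe _, ?_⟩
  rw [ec_coe, Polynomial.eval_map]
  have h1 : (((u₀ : ℝ)) : ℂ) = algebraMap ℚ ℂ u₀ := by
    rw [eq_ratCast]
    push_cast
    rfl
  rw [h1, Polynomial.eval₂_at_apply, eq_ratCast]

/-- evaluation of the identity -/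
theorem ri_val {Z : Matrix (Fin n) (Fin n) ℚ⟦X⟧} {u₀ : ℚ} (hc : ∀ a b, Cc (u₀ : ℝ) (cx (Z a b)))
    {g : (Fin d → Fin n) → ℚ} {q : Polynomial ℚ} {R : (Fin d → Fin n) → Polynomial ℚ}
    (h : ∀ v, (q : ℚ⟦X⟧) * PowerSeries.C (g v) = ∑ v', (∏ l, Z (v l) (v' l)) * (R v' : ℚ⟦X⟧)) (v : Fin d → Fin n) :
    ((q.eval u₀ : ℚ) : ℂ) * (g v : ℂ) = ∑ v', (∏ l, ec (u₀ : ℝ) (cx (Z (v l) (v' l)))) * (((R v').eval u₀ : ℚ) : ℂ) := by
  have h1 : cx ((q : ℚ⟦X⟧) * PowerSeries.C (g v)) = cx (∑ v', (∏ l, Z (v l) (v' l)) * (R v' : ℚ⟦X⟧)) := by rw [h v]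
  have h2 : cx ((q : ℚ⟦X⟧) * PowerSeries.C (g v)) = cx (q : ℚ⟦X⟧) * cx ((Polynomial.C (g v) : Polynomial ℚ) : ℚ⟦X⟧) := by
    unfold cx
    rw [map_mul, Polynomial.coe_C]
  have h3 : cx (∑ v', (∏ l, Z (v l) (v' l)) * (R v' : ℚ⟦X⟧)) = ∑ v', (∏ l, cx (Z (v l) (v' l))) * cx (R v' : ℚ⟦X⟧) := by
    unfold cx
    rw [map_sum]
    refine Finset.sum_congr rfl fun v' _ => ?_
    rw [map_mul, map_prod]
  rw [h2, h3] at h1
  have h4 := congrArg (ec (u₀ : ℝ)) h1
  have h5 : ∀ v' : Fin d → Fin n, Cc (u₀ : ℝ) (∏ l, cx (Z (v l) (v' l))) ∧ ec (u₀ : ℝ) (∏ l, cx (Z (v l) (v' l))) =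
      ∏ l, ec (u₀ : ℝ) (cx (Z (v l) (v' l))) := fun v' => ec_prod _ fun l => hc _ _
  rw [ec_mul (ec_poly u₀ q).1 (ec_poly u₀ _).1, (ec_poly u₀ q).2, (ec_poly u₀ _).2, Polynomial.eval_C,
    (ec_sum _ fun v' => (h5 v').1.mul (ec_poly u₀ (R v')).1).2] at h4
  rw [h4]
  refine Finset.sum_congr rfl fun v' _ => ?_
  rw [ec_mul (h5 v').1 (ec_poly u₀ (R v')).1, (h5 v').2, (ec_poly u₀ (R v')).2]

/-- the tensor power of an invertible matrix is injective -/
theorem inj_pow {Zt : Matrix (Fin n) (Fin n) ℂ} (hu : IsUnit Zt.det) {r : (Fin d → Fin n) → ℂ}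
    (h : ∀ v : Fin d → Fin n, ∑ v' : Fin d → Fin n, (∏ l, Zt (v l) (v' l)) * r v' = 0) (v : Fin d → Fin n) : r v = 0 := by
  set w : Ten ℂ 0 d 0 n := fun _ v => r v with hw
  have h1 : gp 1 Zt w = 0 := by
    funext u v
    rw [gp_apply, Fintype.sum_unique]
    refine Eq.trans (Finset.sum_congr rfl fun v' _ => ?_) (h v)
    rw [Finset.univ_eq_empty, Finset.prod_empty, one_mul]
  have h2 : gp (1 * 1) (Zt⁻¹ * Zt) w = gp 1 Zt⁻¹ (gp 1 Zt w) := gp_mul _ _ _ _ _
  rw [h1, gp_zero, Matrix.nonsing_inv_mul _ hu, one_mul, gp_one] at h2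
  exact congrFun (congrFun h2 default) v

theorem ri_one {Z : Matrix (Fin n) (Fin n) ℚ⟦X⟧} {u₀ : ℚ} (hc : ∀ a b, Cc (u₀ : ℝ) (cx (Z a b)))
    {Zt : Matrix (Fin n) (Fin n) ℂ} (hZt : ∀ a b, Zt a b = ec (u₀ : ℝ) (cx (Z a b))) (hu : IsUnit Zt.det)
    {g : (Fin d → Fin n) → ℚ} : ∀ (N : ℕ) (q : Polynomial ℚ) (R : (Fin d → Fin n) → Polynomial ℚ), q.natDegree = N → q ≠ 0 →
      (∀ v, (q : ℚ⟦X⟧) * PowerSeries.C (g v) = ∑ v', (∏ l, Z (v l) (v' l)) * (R v' : ℚ⟦X⟧)) →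
      ∃ h : (Fin d → Fin n) → ℚ, ∀ v, ∑ v', (∏ l, Zt (v l) (v' l)) * (h v' : ℂ) = (g v : ℂ) := by
  intro N
  induction N with
  | zero =>
    intro q R hN hq h
    have h0 : q.eval u₀ ≠ 0 := by
      rw [Polynomial.eq_C_of_natDegree_eq_zero hN, Polynomial.eval_C]
      intro h1
      refine hq ?_
      rw [Polynomial.eq_C_of_natDegree_eq_zero hN, h1, Polynomial.C_0]
    refine ⟨fun v' => (R v').eval u₀ / q.eval u₀, fun v => ?_⟩
    have h1 := ri_val hc h v
    have h2 : ((q.eval u₀ : ℚ) : ℂ) ≠ 0 := Rat.cast_ne_zero.2 h0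
    have h3 : (g v : ℂ) = (∑ v', (∏ l, ec (u₀ : ℝ) (cx (Z (v l) (v' l)))) * (((R v').eval u₀ : ℚ) : ℂ)) / ((q.eval u₀ : ℚ) : ℂ) := by
      rw [eq_div_iff h2, ← h1, mul_comm]
    rw [h3, Finset.sum_div]
    refine Finset.sum_congr rfl fun v' _ => ?_
    rw [Rat.cast_div, mul_div_assoc]
    simp only [hZt]
  | succ N ih =>
    intro q R hN hq h
    by_cases h0 : q.eval u₀ = 0
    · have h1 : ∀ v, (((R v).eval u₀ : ℚ) : ℂ) = 0 := by
        refine inj_pow hu fun v => ?_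
        have h2 := ri_val hc h v
        rw [h0, Rat.cast_zero, zero_mul] at h2
        rw [h2]
        simp only [hZt]
      obtain ⟨q₁, hq₁⟩ := Polynomial.dvd_iff_isRoot.2 h0
      have h3 : ∀ v, ∃ R₁, R v = (Polynomial.X - Polynomial.C u₀) * R₁ := fun v =>
        Polynomial.dvd_iff_isRoot.2 (Rat.cast_eq_zero.1 (h1 v))
      choose R₁ hR₁ using h3
      have hx : (Polynomial.X - Polynomial.C u₀ : Polynomial ℚ) ≠ 0 := Polynomial.X_sub_C_ne_zero u₀
      have hq1 : q₁ ≠ 0 := by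
        rintro rfl
        exact hq (by rw [hq₁, mul_zero])
      have hdeg : q₁.natDegree = N := by
        have h4 := Polynomial.natDegree_mul hx hq1
        rw [← hq₁, hN, Polynomial.natDegree_X_sub_C] at h4
        omega
      refine ih q₁ R₁ hdeg hq1 fun v => ?_
      have hx' : ((Polynomial.X - Polynomial.C u₀ : Polynomial ℚ) : ℚ⟦X⟧) ≠ 0 := by
        intro h4
        exact hx (Polynomial.coe_inj.1 (by rw [h4, Polynomial.coe_zero]))
      refine mul_left_cancel₀ hx' ?_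
      have h5 := h v
      rw [hq₁, Polynomial.coe_mul, mul_assoc] at h5
      rw [h5, Finset.mul_sum]
      refine Finset.sum_congr rfl fun v' _ => ?_
      rw [hR₁ v', Polynomial.coe_mul]
      ring
    · refine ⟨fun v' => (R v').eval u₀ / q.eval u₀, fun v => ?_⟩
      have h1 := ri_val hc h v
      have h2 : ((q.eval u₀ : ℚ) : ℂ) ≠ 0 := Rat.cast_ne_zero.2 h0
      have h3 : (g v : ℂ) = (∑ v', (∏ l, ec (u₀ : ℝ) (cx (Z (v l) (v' l)))) * (((R v').eval u₀ : ℚ) : ℂ)) / ((q.eval u₀ : ℚ) : ℂ) := by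
        rw [eq_div_iff h2, ← h1, mul_comm]
      rw [h3, Finset.sum_div]
      refine Finset.sum_congr rfl fun v' _ => ?_
      rw [Rat.cast_div, mul_div_assoc]
      simp only [hZt]

/-- **rational invariant tensors are images of rational tensors under the values of `Z`** -/
theorem ri_eval {Z : Matrix (Fin n) (Fin n) ℚ⟦X⟧} {𝔤 : Submodule ℂ (Matrix (Fin n) (Fin n) ℂ)} (hRI : RI Z 𝔤) {u₀ : ℚ}
    (hc : ∀ a b, Cc (u₀ : ℝ) (cx (Z a b))) {Zt : Matrix (Fin n) (Fin n) ℂ} (hZt : ∀ a b, Zt a b = ec (u₀ : ℝ) (cx (Z a b)))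
    (hu : IsUnit Zt.det) (g : Ten ℚ d₀ d r₀ n) (hg : ∀ X ∈ 𝔤, la X (tC g) = 0) :
    ∃ h : Ten ℚ d₀ d r₀ n, gp 1 Zt (tC h) = tC g := by
  have h1 : ∀ u : Fin d₀ → Fin r₀, ∃ h : (Fin d → Fin n) → ℚ, ∀ v, ∑ v', (∏ l, Zt (v l) (v' l)) * (h v' : ℂ) = (g u v : ℂ) := by
    intro u
    obtain ⟨q, R, hq, hR⟩ := hRI d (g u) fun X hX v => by
      have h2 := congrFun (congrFun (hg X hX) u) v
      rw [la_apply] at h2
      exact h2
    exact ri_one hc hZt hu q.natDegree q R rfl hq hR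
  choose h hh using h1
  refine ⟨h, ?_⟩
  funext u v
  rw [gp_apply]
  simp only [prod_one]
  rw [Finset.sum_eq_single u]
  · simp only [if_true, one_mul]
    exact hh u v
  · intro u' _ hu'
    refine Finset.sum_eq_zero fun v' _ => ?_
    rw [if_neg hu', zero_mul, zero_mul]
  · intro h2
    exact absurd (Finset.mem_univ _) h2

end Pool.Agent.Helper880_RB
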