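import Pool.Agent.Helper880_RB.Tra

/-!
# The subtorsor of a line
-/

set_option autoImplicit false
set_option linter.unusedSectionVars false
set_option linter.unusedVariables false

open Matrix Module

namespace Pool.Agent.Helper880_RB


variable {n r₀ d₀ d : ℕ}

/-- the block matrices which map `w` to a multiple of `f` -/
def LT (w : Ten ℂ d₀ d r₀ n) (f : Ten ℚ d₀ d r₀ n) : Set (Matrix (Ix r₀ n 1) (Ix r₀ n 1) ℂ) :=
  {x | IsUnit x ∧ ∃ (a : Matrix (Fin r₀) (Fin r₀) ℂ) (b : Matrix (Fin n) (Fin n) ℂ), x = Tot a (fun _ : Fin 1 => b) ∧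
    ∃ c : ℂ, gp a b w = c • tC f}

theorem tot_unit {a : Matrix (Fin r₀) (Fin r₀) ℂ} {b : Matrix (Fin n) (Fin n) ℂ} (h : IsUnit (Tot a (fun _ : Fin 1 => b))) :
    IsUnit a.det ∧ IsUnit b.det := by
  have h1 := Tot_unit h
  exact ⟨(Matrix.isUnit_iff_isUnit_det _).1 h1.1, (Matrix.isUnit_iff_isUnit_det _).1 (h1.2 0)⟩

theorem tot_inv {a : Matrix (Fin r₀) (Fin r₀) ℂ} {b : Matrix (Fin n) (Fin n) ℂ} (ha : IsUnit a.det) (hb : IsUnit b.det) :
    (Tot a (fun _ : Fin 1 => b))⁻¹ = Tot a⁻¹ (fun _ : Fin 1 => b⁻¹) := by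
  refine Matrix.inv_eq_right_inv ?_
  rw [Tot_mul, Matrix.mul_nonsing_inv _ ha]
  have h1 : (fun j : Fin 1 => b * b⁻¹) = fun _ => (1 : Matrix (Fin n) (Fin n) ℂ) := by
    funext j
    exact Matrix.mul_nonsing_inv _ hb
  have h2 : (fun j : Fin 1 => (fun _ : Fin 1 => b) j * (fun _ : Fin 1 => b⁻¹) j) = fun _ => (1 : Matrix (Fin n) (Fin n) ℂ) := h1
  rw [h2]
  unfold Tot
  rw [show (fun _ : Fin 1 => (1 : Matrix (Fin n) (Fin n) ℂ)) = 1 from rfl, Matrix.blockDiagonal_one, Matrix.fromBlocks_one]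

/-- closed under `x y⁻¹ z` -/
theorem LT_mul {w : Ten ℂ d₀ d r₀ n} {f : Ten ℚ d₀ d r₀ n} (hw : w ≠ 0) : ∀ x ∈ LT w f, ∀ y ∈ LT w f, ∀ z ∈ LT w f,
    x * y⁻¹ * z ∈ LT w f := by
  rintro _ ⟨hx, a, b, rfl, c, h1⟩ _ ⟨hy, a', b', rfl, c', h2⟩ _ ⟨hz, a'', b'', rfl, c'', h3⟩
  obtain ⟨ha, hb⟩ := tot_unit hx
  obtain ⟨ha', hb'⟩ := tot_unit hy
  obtain ⟨ha'', hb''⟩ := tot_unit hz
  have hc' : c' ≠ 0 := by
    rintro rfl
    rw [zero_smul] at h2
    refine hw ?_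
    exact gp_inj ha' hb' (h2.trans (gp_zero _ _).symm)
  rw [tot_inv ha' hb', Tot_mul, Tot_mul]
  refine ⟨?_, a * a'⁻¹ * a'', b * b'⁻¹ * b'', rfl, c * (c'' / c'), ?_⟩
  · rw [← Tot_mul, ← Tot_mul, ← tot_inv ha' hb']
    exact (hx.mul ((Matrix.isUnit_nonsing_inv_iff).2 hy)).mul hz
  · rw [gp_mul, h3]
    have h4 : tC f = c'⁻¹ • gp a' b' w := by
      rw [h2, smul_smul, inv_mul_cancel₀ hc', one_smul]
    rw [h4, gp_smul, gp_smul, gp_mul, ← gp_mul a'⁻¹ a' b'⁻¹ b', Matrix.nonsing_inv_mul _ ha', Matrix.nonsing_inv_mul _ hb', gp_one,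
      h1, smul_smul, smul_smul]
    rw [← h4]
    congr 1
    field_simp

/-- the entries of the blocks of a general matrix -/
theorem blocks {R : Type} [Zero R] (x : Matrix (Ix r₀ n 1) (Ix r₀ n 1) R) : (∃ (a : Matrix (Fin r₀) (Fin r₀) R)
    (b : Matrix (Fin n) (Fin n) R), x = Matrix.fromBlocks a 0 0 (Matrix.blockDiagonal fun _ : Fin 1 => b)) ↔
      (∀ i j, x (Sum.inl i) (Sum.inr j) = 0) ∧ ∀ i j, x (Sum.inr i) (Sum.inl j) = 0 := by
  constructor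
  · rintro ⟨a, b, rfl⟩
    exact ⟨fun i j => rfl, fun i j => rfl⟩
  · rintro ⟨h1, h2⟩
    refine ⟨Matrix.of fun i j => x (Sum.inl i) (Sum.inl j), Matrix.of fun i j => x (Sum.inr (i, 0)) (Sum.inr (j, 0)), ?_⟩
    ext i j
    rcases i with i | ⟨i, s⟩ <;> rcases j with j | ⟨j, t⟩
    · rfl
    · exact h1 _ _
    · exact h2 _ _
    · have hs : s = 0 := Subsingleton.elim _ _
      have ht : t = 0 := Subsingleton.elim _ _
      subst hs
      subst ht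
      rw [Matrix.fromBlocks_apply₂₂, Matrix.blockDiagonal_apply, if_pos rfl]
      rfl

/-- multiples of a tensor different from zero -/
theorem mult_iff {f : Ten ℚ d₀ d r₀ n} (hf : f ≠ 0) (g : Ten ℂ d₀ d r₀ n) : (∃ c : ℂ, g = c • tC f) ↔
    ∀ u v u' v', g u v * (f u' v' : ℂ) = g u' v' * (f u v : ℂ) := by
  constructor
  · rintro ⟨c, rfl⟩ u v u' v'
    show c * (f u v : ℂ) * (f u' v' : ℂ) = c * (f u' v' : ℂ) * (f u v : ℂ)
    ring
  · intro h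
    obtain ⟨u₀, v₀, h0⟩ : ∃ u v, f u v ≠ 0 := by
      by_contra hcon
      simp only [not_exists, not_not] at hcon
      exact hf (funext fun u => funext fun v => hcon u v)
    have h0' : (f u₀ v₀ : ℂ) ≠ 0 := Rat.cast_ne_zero.2 h0
    refine ⟨g u₀ v₀ / (f u₀ v₀ : ℂ), ?_⟩
    funext u v
    show g u v = g u₀ v₀ / (f u₀ v₀ : ℂ) * (f u v : ℂ)
    rw [div_mul_eq_mul_div, eq_div_iff h0']
    exact h u v u₀ v₀

/-- **the equations** -/
theorem LT_pol (K : Subfield ℂ) {w : Ten ℂ d₀ d r₀ n} (hw : ∀ u v, w u v ∈ K) {f : Ten ℚ d₀ d r₀ n} (hf : f ≠ 0) :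
    ∃ I : Set (MvPolynomial (Ix r₀ n 1 × Ix r₀ n 1) K), ∀ x : Matrix (Ix r₀ n 1) (Ix r₀ n 1) ℂ, x ∈ LT w f ↔
      IsUnit x ∧ ∀ p ∈ I, MvPolynomial.eval (fun b => x b.1 b.2) (MvPolynomial.map (algebraMap K ℂ) p) = 0 := by
  classical
  let X0 : Ix r₀ n 1 → Ix r₀ n 1 → MvPolynomial (Ix r₀ n 1 × Ix r₀ n 1) K := fun i j => MvPolynomial.X (i, j)
  let G : (Fin d₀ → Fin r₀) → (Fin d → Fin n) → MvPolynomial (Ix r₀ n 1 × Ix r₀ n 1) K := fun u v =>
    ∑ u', ∑ v', (∏ k, X0 (Sum.inl (u k)) (Sum.inl (u' k))) * (∏ l, X0 (Sum.inr (v l, 0)) (Sum.inr (v' l, 0))) *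
      MvPolynomial.C (⟨w u' v', hw u' v'⟩ : K)
  refine ⟨{p | (∃ i j, p = X0 (Sum.inl i) (Sum.inr j)) ∨ (∃ i j, p = X0 (Sum.inr i) (Sum.inl j)) ∨
    ∃ u v u' v', p = G u v * MvPolynomial.C ((f u' v' : ℚ) : K) - G u' v' * MvPolynomial.C ((f u v : ℚ) : K)}, fun x => ?_⟩
  let ψ : MvPolynomial (Ix r₀ n 1 × Ix r₀ n 1) K →+* ℂ := (MvPolynomial.eval fun b => x b.1 b.2).comp
    (MvPolynomial.map (algebraMap K ℂ))
  have hX : ∀ i j, ψ (X0 i j) = x i j := by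
    intro i j
    show MvPolynomial.eval _ (MvPolynomial.map (algebraMap K ℂ) (MvPolynomial.X (i, j))) = x i j
    rw [MvPolynomial.map_X, MvPolynomial.eval_X]
  have hC : ∀ z : K, ψ (MvPolynomial.C z) = (z : ℂ) := by
    intro z
    show MvPolynomial.eval _ (MvPolynomial.map (algebraMap K ℂ) (MvPolynomial.C z)) = _
    rw [MvPolynomial.map_C, MvPolynomial.eval_C]
    rfl
  have hG : ∀ u v, ψ (G u v) = ∑ u' : Fin d₀ → Fin r₀, ∑ v' : Fin d → Fin n, (∏ k, x (Sum.inl (u k)) (Sum.inl (u' k))) *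
      (∏ l, x (Sum.inr (v l, 0)) (Sum.inr (v' l, 0))) * w u' v' := by
    intro u v
    show ψ (∑ u', ∑ v', _) = _
    rw [map_sum]
    refine Finset.sum_congr rfl fun u' _ => ?_
    rw [map_sum]
    refine Finset.sum_congr rfl fun v' _ => ?_
    rw [map_mul, map_mul, map_prod, map_prod, hC]
    simp only [hX]
  have hev : ∀ p, MvPolynomial.eval (fun b => x b.1 b.2) (MvPolynomial.map (algebraMap K ℂ) p) = ψ p := fun p => rfl
  constructor
  · rintro ⟨hx, a, b, rfl, hc⟩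
    refine ⟨hx, fun p hp => ?_⟩
    rw [hev]
    rcases hp with ⟨i, j, rfl⟩ | ⟨i, j, rfl⟩ | ⟨u, v, u', v', rfl⟩
    · rw [hX]
      rfl
    · rw [hX]
      rfl
    · have h1 := (mult_iff hf _).1 hc u v u' v'
      have h2 : ∀ u v, ψ (G u v) = gp a b w u v := by
        intro u v
        rw [hG, gp_apply]
        refine Finset.sum_congr rfl fun s _ => Finset.sum_congr rfl fun t _ => ?_
        congr 1
      rw [map_sub, map_mul, map_mul, hC, hC, h2, h2, sub_eq_zero]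
      have h3 : ∀ q : ℚ, ((q : K) : ℂ) = (q : ℂ) := fun q => by push_cast; rfl
      rw [h3, h3]
      exact h1
  · rintro ⟨hx, hp⟩
    have h1 : ∀ i j, x (Sum.inl i) (Sum.inr j) = 0 := by
      intro i j
      rw [← hX]
      exact hp _ (Or.inl ⟨i, j, rfl⟩)
    have h2 : ∀ i j, x (Sum.inr i) (Sum.inl j) = 0 := by
      intro i j
      rw [← hX]
      exact hp _ (Or.inr (Or.inl ⟨i, j, rfl⟩))
    obtain ⟨a, b, hab⟩ := (blocks x).2 ⟨h1, h2⟩
    refine ⟨hx, a, b, hab, (mult_iff hf _).2 fun u v u' v' => ?_⟩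
    have h3 := hp _ (Or.inr (Or.inr ⟨u, v, u', v', rfl⟩))
    have h4 : ∀ u v, ψ (G u v) = gp a b w u v := by
      intro u v
      rw [hG, gp_apply]
      refine Finset.sum_congr rfl fun s _ => Finset.sum_congr rfl fun t _ => ?_
      rw [hab]
      congr 1
    rw [hev, map_sub, map_mul, map_mul, hC, hC, h4, h4, sub_eq_zero] at h3
    have h5 : ∀ q : ℚ, ((q : K) : ℂ) = (q : ℂ) := fun q => by push_cast; rfl
    rw [h5, h5] at h3
    exact h3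

end Pool.Agent.Helper880_RB
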