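import Pool.Agent.Helper880_RB.Bas

/-!
# Transport of de Rham-Betti lines which are invariant under a rational Lie algebra
-/

set_option autoImplicit false
set_option linter.unusedSectionVars false
set_option linter.unusedVariables false

open Matrix Module

namespace Pool.Agent.Helper880_RB


variable {n r₀ d₀ d : ℕ}

/-- a linear map applied to the coordinates -/
noncomputable def lw (θ : ℂ →ₗ[ℚ] ℂ) (w : Ten ℂ d₀ d r₀ n) : Ten ℂ d₀ d r₀ n := fun u v => θ (w u v)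

theorem theta_rat (θ : ℂ →ₗ[ℚ] ℂ) (z : ℂ) (q : ℚ) : θ (z * (q : ℂ)) = θ z * (q : ℂ) := by
  have h : z * (q : ℂ) = q • z := by
    rw [mul_comm, Rat.smul_def]
  rw [h, map_smul, Rat.smul_def, mul_comm]

theorem lw_sum {ι : Type} (θ : ℂ →ₗ[ℚ] ℂ) (s : Finset ι) (b : ι → ℂ) (g : ι → Ten ℚ d₀ d r₀ n) :
    lw θ (∑ i ∈ s, b i • tC (g i)) = ∑ i ∈ s, θ (b i) • tC (g i) := by
  funext u v
  show θ ((∑ i ∈ s, b i • tC (g i)) u v) = _
  rw [Finset.sum_apply, Finset.sum_apply, Finset.sum_apply, Finset.sum_apply, map_sum]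
  refine Finset.sum_congr rfl fun i _ => ?_
  exact theta_rat θ (b i) (g i u v)

/-- **linear maps and rational invariants** -/
theorem lin_inv {𝔤 : Submodule ℂ (Matrix (Fin n) (Fin n) ℂ)} (hr : DefOver K₀ 𝔤) {Zt : Matrix (Fin n) (Fin n) ℂ}
    (hZ : ∀ g : Ten ℚ d₀ d r₀ n, (∀ X ∈ 𝔤, la X (tC g) = 0) → ∃ h : Ten ℚ d₀ d r₀ n, gp 1 Zt (tC h) = tC g)
    {w : Ten ℂ d₀ d r₀ n} (hw : ∀ X ∈ 𝔤, la X w = 0) :
    ∃ wt : Ten ℂ d₀ d r₀ n, gp 1 Zt wt = w ∧ ∀ θ : ℂ →ₗ[ℚ] ℂ, gp 1 Zt (lw θ wt) = lw θ w := by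
  obtain ⟨ι, s, b, g, h1, h2⟩ := expand hr hw
  choose h hh using fun i => hZ (g i) (h1 i)
  refine ⟨∑ i ∈ s, b i • tC (h i), ?_, fun θ => ?_⟩
  · rw [gp_sum, h2]
    exact Finset.sum_congr rfl fun i _ => by rw [gp_smul, hh]
  · rw [lw_sum, gp_sum, h2, lw_sum]
    exact Finset.sum_congr rfl fun i _ => by rw [gp_smul, hh]

/-- the projection to a subfield -/
theorem proj (K : Subfield ℂ) : ∃ θ : ℂ →ₗ[ℚ] ℂ, (∀ z ∈ K, θ z = z) ∧ ∀ z, θ z ∈ K := by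
  let i : K →ₗ[ℚ] ℂ :=
    { toFun := fun z => (z : ℂ)
      map_add' := fun _ _ => rfl
      map_smul' := fun q z => by
        rw [Rat.smul_def, RingHom.id_apply, Rat.smul_def]
        push_cast
        rfl }
  obtain ⟨g, hg⟩ := LinearMap.exists_leftInverse_of_injective i (LinearMap.ker_eq_bot.2 fun a b h => Subtype.ext h)
  refine ⟨i ∘ₗ g, fun z hz => ?_, fun z => (g z).2⟩
  have h1 := congrArg (fun T => T (⟨z, hz⟩ : K)) hg
  show i (g z) = z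
  have h2 : g (i ⟨z, hz⟩) = ⟨z, hz⟩ := h1
  have h3 : g z = ⟨z, hz⟩ := h2
  rw [h3]
  rfl

theorem gp_inj {x : Matrix (Fin r₀) (Fin r₀) ℂ} {X : Matrix (Fin n) (Fin n) ℂ} (hx : IsUnit x.det) (hX : IsUnit X.det)
    {f g : Ten ℂ d₀ d r₀ n} (h : gp x X f = gp x X g) : f = g := by
  have h1 := congrArg (gp x⁻¹ X⁻¹) h
  rw [← gp_mul, ← gp_mul, Matrix.nonsing_inv_mul _ hx, Matrix.nonsing_inv_mul _ hX, gp_one, gp_one] at h1
  exact h1

/-- **the transport of invariant lines** -/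
theorem line_iff {𝔤 : Submodule ℂ (Matrix (Fin n) (Fin n) ℂ)} (hr : DefOver K₀ 𝔤) {Zt : Matrix (Fin n) (Fin n) ℂ}
    (hZ : ∀ g : Ten ℚ d₀ d r₀ n, (∀ X ∈ 𝔤, la X (tC g) = 0) → ∃ h : Ten ℚ d₀ d r₀ n, gp 1 Zt (tC h) = tC g)
    {C₀ : Matrix (Fin r₀) (Fin r₀) ℂ} {C : Matrix (Fin n) (Fin n) ℂ} (hC₀ : IsUnit C₀.det) (hC : IsUnit C.det)
    (hZt : IsUnit Zt.det) (K : Subfield ℂ) (l : ℂ) (f : Ten ℚ d₀ d r₀ n) (hk : ∀ X ∈ 𝔤, la (C * X * C⁻¹) (tC f) = 0) :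
    (∃ w : Ten ℂ d₀ d r₀ n, (∀ u v, w u v ∈ K) ∧ gp C₀ (C * Zt) w = l • tC f) ↔
      ∃ w : Ten ℂ d₀ d r₀ n, (∀ u v, w u v ∈ K) ∧ gp C₀ C w = l • tC f := by
  obtain ⟨θ, hθ1, hθ2⟩ := proj K
  set wc : Ten ℂ d₀ d r₀ n := gp C₀⁻¹ C⁻¹ (l • tC f) with hwc
  have hgc : gp C₀ C wc = l • tC f := by
    rw [hwc, ← gp_mul, Matrix.mul_nonsing_inv _ hC₀, Matrix.mul_nonsing_inv _ hC, gp_one]
  have hconj : ∀ X : Matrix (Fin n) (Fin n) ℂ, C⁻¹ * (C * X * C⁻¹) * C = X := by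
    intro X
    rw [← Matrix.mul_assoc, ← Matrix.mul_assoc, Matrix.nonsing_inv_mul _ hC, Matrix.one_mul, Matrix.mul_assoc,
      Matrix.nonsing_inv_mul _ hC, Matrix.mul_one]
  have hwk : ∀ X ∈ 𝔤, la X wc = 0 := by
    intro X hX
    have h1 : la (C * X * C⁻¹) (l • tC f) = 0 := by
      unfold la
      rw [map_smul]
      have h2 := hk X hX
      unfold la at h2
      rw [h2, smul_zero]
    rw [← hgc, la_gp C₀ hC, hconj] at h1
    have h2 := congrArg (gp C₀⁻¹ C⁻¹) h1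
    rw [← gp_mul, Matrix.nonsing_inv_mul _ hC, Matrix.nonsing_inv_mul _ hC₀, gp_one, gp_zero] at h2
    exact h2
  obtain ⟨wt, hwt, hlin⟩ := lin_inv hr hZ hwk
  have hgt : gp C₀ (C * Zt) wt = l • tC f := by
    have h2 := gp_mul C₀ 1 C Zt wt
    rw [Matrix.mul_one] at h2
    rw [h2, hwt, hgc]
  have hCZ : IsUnit (C * Zt).det := by
    rw [Matrix.det_mul]
    exact hC.mul hZt
  have h1d : IsUnit (1 : Matrix (Fin r₀) (Fin r₀) ℂ).det := by
    rw [Matrix.det_one]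
    exact isUnit_one
  constructor
  · rintro ⟨w, hw, he⟩
    have h1 : w = wt := gp_inj hC₀ hCZ (he.trans hgt.symm)
    have h2 : lw θ wt = wt := by
      rw [← h1]
      funext u v
      exact hθ1 _ (hw u v)
    have h3 := hlin θ
    rw [h2, hwt] at h3
    refine ⟨wc, fun u v => ?_, hgc⟩
    have h4 := congrFun (congrFun h3 u) v
    rw [h4]
    exact hθ2 _
  · rintro ⟨w, hw, he⟩
    have h1 : w = wc := gp_inj hC₀ hC (he.trans hgc.symm)
    have h2 : lw θ wc = wc := by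
      rw [← h1]
      funext u v
      exact hθ1 _ (hw u v)
    have h3 := hlin θ
    rw [h2, ← hwt] at h3
    have h5 := gp_inj h1d hZt h3
    refine ⟨wt, fun u v => ?_, hgt⟩
    have h4 := congrFun (congrFun h5 u) v
    rw [← h4]
    exact hθ2 _

/-- matrices which act by scalars -/
theorem scal_br {A B : Matrix (Fin n) (Fin n) ℂ} {f : Ten ℂ d₀ d r₀ n} (hA : ∃ c : ℂ, la A f = c • f)
    (hB : ∃ c : ℂ, la B f = c • f) : la (A * B - B * A) f = 0 := by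
  obtain ⟨a, ha⟩ := hA
  obtain ⟨b, hb⟩ := hB
  have h1 := act_br (K := ℂ) (d₀ := d₀) (r₀ := r₀) (fun _ : Fin d => (0 : Fin 1)) 0 0 (fun _ : Fin 1 => A) (fun _ : Fin 1 => B)
  rw [Matrix.mul_zero, sub_zero] at h1
  have h3 := congrArg (fun T : Module.End ℂ (Ten ℂ d₀ d r₀ n) => T f) h1
  simp only [LinearMap.sub_apply, Module.End.mul_apply] at h3
  unfold la at ha hb ⊢
  rw [← h3, hb, ha, map_smul, map_smul, ha, hb, smul_smul, smul_smul, mul_comm, sub_self]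

/-- the derivative of a character -/
theorem scal_of {N : Matrix (Fin n) (Fin n) ℂ} {f : Ten ℂ d₀ d r₀ n}
    (h : ∀ s : ℂ, ∃ c : ℂ, gp 1 (NormedSpace.exp (s • N)) f = c • f) : ∃ c : ℂ, la N f = c • f := by
  by_cases hf : f = 0
  · refine ⟨0, ?_⟩
    rw [hf, smul_zero]
    unfold la
    rw [map_zero]
  obtain ⟨u₀, v₀, h0⟩ : ∃ u v, f u v ≠ 0 := by
    by_contra hcon
    simp only [not_exists, not_not] at hcon
    exact hf (funext fun u => funext fun v => hcon u v)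
  choose c hc using h
  refine ⟨la N f u₀ v₀ / f u₀ v₀, ?_⟩
  funext u v
  have h1 := gp_HD N f u v
  have h2 := (gp_HD N f u₀ v₀).mul_const (f u v)
  have h3 := h1.mul_const (f u₀ v₀)
  have h4 : (fun s : ℂ => gp 1 (NormedSpace.exp (s • N)) f u v * f u₀ v₀) =
      fun s : ℂ => gp 1 (NormedSpace.exp (s • N)) f u₀ v₀ * f u v := by
    funext s
    rw [hc s]
    show c s * f u v * f u₀ v₀ = c s * f u₀ v₀ * f u v
    ring
  rw [h4] at h3
  have h5 := h3.unique h2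
  show la N f u v = la N f u₀ v₀ / f u₀ v₀ * f u v
  rw [div_mul_eq_mul_div, eq_div_iff h0]
  exact h5

end Pool.Agent.Helper880_RB
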